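import Pool.Agent.Lib_helper72.RR.Glue2

/-!
# MP_ff1fb3_nt: small points of the ring generated by all roots of an algebraic number

`L = ℚ(μ_∞, α, α^{1/2}, α^{1/3}, …)`, `α` an algebraic number, not zero and not a root of unity.
Every element of `L` is a sum `∑ x_j γ^j` with `γ ^ N = α` and `x_j ∈ ℚ(μ_∞, α)`.  We prove the
statement of Q1 for all those sums whose coefficients have denominators prime to `N` (more generally
with coefficients in the field `M_S` generated by all roots of unity and all roots of `α` of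
`S`-smooth order, `S` a finite set of primes, `N` prime to `S`), and for all elements of the ring
`ℤ[1/s, μ_∞, α^q : q ∈ ℚ]`, `s ≥ 1`.
-/

namespace Pool.Agent.Results.MP_ff1fb3_nt.RadicalRing

open Polynomial

/-- the field of all algebraic numbers -/
abbrev Qbar : Type := AlgebraicClosure ℚ

/-- A primitive polynomial with integer coefficients which is a rational multiple of `f ≠ 0`:
clear the denominators and divide by the content. -/
noncomputable def primitiveMultiple (f : ℚ[X]) : ℤ[X] :=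
  (IsLocalization.integerNormalization (nonZeroDivisors ℤ) f).primPart

/-- The absolute logarithmic Weil height
`h(x) = (1 / [ℚ(x) : ℚ]) log (|lc(P)| ∏_z max(1, |z|))`, where `P` is the minimal polynomial of `x`
over `ℤ` (up to sign) and `z` runs over the complex roots of `P`. -/
noncomputable def weilHeight (x : Qbar) : ℝ :=
  Real.log (|((primitiveMultiple (minpoly ℚ x)).leadingCoeff : ℝ)| *
    ((((primitiveMultiple (minpoly ℚ x)).map (Int.castRingHom ℂ)).roots).map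
      (fun z => max 1 ‖z‖)).prod) / (minpoly ℚ x).natDegree

/-- `M_S = ℚ(μ_∞, α^{1/n} : n ≥ 1 with all prime factors in S)`; `M_∅ = ℚ(μ_∞, α)` -/
noncomputable def fieldM (α : Qbar) (S : Set ℕ) : IntermediateField ℚ Qbar :=
  IntermediateField.adjoin ℚ
    ({x | ∃ n : ℕ, 0 < n ∧ x ^ n = 1} ∪
      {x | ∃ n : ℕ, (0 < n ∧ ∀ q : ℕ, q.Prime → q ∣ n → q ∈ S) ∧ x ^ n = α})

/-- `⟨α⟩_div` : the nonzero `γ` with `γ ^ n ∈ ⟨α⟩` for some `n ≥ 1` -/
def divisionGroup (α : Qbar) : Set Qbar :=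
  {γ | γ ≠ 0 ∧ ∃ n : ℕ, 0 < n ∧ ∃ k : ℤ, γ ^ n = α ^ k}

/-- The denominator of the algebraic number `x` is prime to `N`: `m x` is an algebraic integer for
some natural number `m` prime to `N`. -/
def DenPrimeTo (N : ℕ) (x : Qbar) : Prop :=
  ∃ m : ℕ, m.Coprime N ∧ IsIntegral ℤ ((m : Qbar) * x)

/-- The ring `ℤ[1/s, μ_∞, α^q : q ∈ ℚ]` generated by `1/s`, all roots of unity, and all roots of
`α` and of `α⁻¹`. -/
noncomputable def radicalRing (α : Qbar) (s : ℕ) : Subalgebra ℤ Qbar :=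
  Algebra.adjoin ℤ ({x | ∃ n : ℕ, 0 < n ∧ x ^ n = 1} ∪ {x | ∃ n : ℕ, 0 < n ∧ x ^ n = α} ∪
    {x | ∃ n : ℕ, 0 < n ∧ x ^ n = α⁻¹} ∪ {(s : Qbar)⁻¹})

/-- Let `α` be an algebraic number, not zero and not a root of unity.
(1) For every finite set `S` of primes there is `c > 0` with `h(β) ≥ c` for all
`β = ∑_{j < n} x_j γ^j` outside `⟨α⟩_div ∪ {0}`, where `γ ^ N = α`, `N` is prime to `S`, and the
`x_j ∈ M_S` have denominators prime to `N`.
(2) For every `s ≥ 1` there is `c > 0` with `h(β) ≥ c` for all `β ∈ ℤ[1/s, μ_∞, α^q : q ∈ ℚ]`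
outside `⟨α⟩_div ∪ {0}`. -/
theorem result (α : Qbar) (h0 : α ≠ 0) (hα : ∀ n : ℕ, 0 < n → α ^ n ≠ 1) :
    (∀ S : Set ℕ, S.Finite → ∃ c : ℝ, 0 < c ∧
      ∀ N : ℕ, 0 < N → (∀ q : ℕ, q.Prime → q ∣ N → q ∉ S) → ∀ γ : Qbar, γ ^ N = α →
        ∀ (n : ℕ) (x : ℕ → Qbar), (∀ j, x j ∈ fieldM α S) → (∀ j, DenPrimeTo N (x j)) →
          ∀ β : Qbar, β = ∑ j ∈ Finset.range n, x j * γ ^ j → β ≠ 0 → β ∉ divisionGroup α →
            c ≤ weilHeight β) ∧
    (∀ s : ℕ, 0 < s → ∃ c : ℝ, 0 < c ∧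
      ∀ β ∈ radicalRing α s, β ≠ 0 → β ∉ divisionGroup α → c ≤ weilHeight β) := by
  have halg : Algebra.IsAlgebraic ℚ Qbar := by
    refine ⟨fun x => ?_⟩
    obtain ⟨f, hf, hfx⟩ := (AlgebraicClosure.isAlgebraic ℚ).isAlgebraic x
    refine ⟨f, hf, ?_⟩
    rw [aeval_def] at hfx ⊢
    rw [← hfx]
    congr 1
  refine ⟨fun S hS => ?_, fun s hs => ?_⟩
  · obtain ⟨c, hc, h⟩ := RR.coeff_thm h0 hα hS.toFinset
    rw [hS.coe_toFinset] at h
    exact ⟨c, hc, fun N hN hq γ hγ n x hx hd β hβ hβ0 hβD =>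
      h N ⟨hN, hq⟩ γ hγ n x hx hd β hβ hβ0 hβD⟩
  · exact RR.ring_thm h0 hα hs

end Pool.Agent.Results.MP_ff1fb3_nt.RadicalRing
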