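import Pool.Agent.Lib_helper72.SP.GlueR

/-!
# MP_ff1fb3_nt: small points of the form `P(γ) / Q(γ)`, `γ` a root of `α`

`L = ℚ(μ_∞, α, α^{1/2}, α^{1/3}, …)`, `α` an algebraic number, not zero and not a root of unity.
Let `M_S` be the field generated by all roots of unity and all roots of `α` of `S`-smooth order
(`S` a finite set of primes).  Every element of `L` lies in `M_S(γ)` for some root `γ` of `α`, and
there it is a quotient `P(γ) / Q(γ)`, `P, Q ∈ M_S[X]`, with degrees at most `d / 2`,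
`d = [M_S(γ) : M_S]`.  We prove the statement of Q1 for all quotients `P(γ) / Q(γ)` with degrees at
most `d / (96 log d)`, the coefficients being arbitrary; one may also multiply by any power of
`γ`.
-/

namespace Pool.Agent.Results.MP_ff1fb3_nt.RationalFunctions

open Polynomial

/-- the field of all algebraic numbers -/
abbrev Qbar : Type := AlgebraicClosure ℚ

/-- A primitive polynomial with integer coefficients which is a rational multiple of `f ≠ 0`:
clear the denominators and divide by the content. -/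
noncomputable def primitiveMultiple (f : ℚ[X]) : ℤ[X] :=
  (IsLocalization.integerNormalization (nonZeroDivisors ℤ) f).primPart

/-- The absolute logarithmic Weil height
`h(x) = (1 / [ℚ(x) : ℚ]) log (|lc(P)| ∏_z max(1, |z|))`, where `P` is the minimal polynomial of `x`
over `ℤ` (up to sign) and `z` runs over the complex roots of `P`. -/
noncomputable def weilHeight (x : Qbar) : ℝ :=
  Real.log (|((primitiveMultiple (minpoly ℚ x)).leadingCoeff : ℝ)| *
    ((((primitiveMultiple (minpoly ℚ x)).map (Int.castRingHom ℂ)).roots).map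
      (fun z => max 1 ‖z‖)).prod) / (minpoly ℚ x).natDegree

/-- `M_S = ℚ(μ_∞, α^{1/n} : n ≥ 1 with all prime factors in S)`; `M_∅ = ℚ(μ_∞, α)` -/
noncomputable def fieldM (α : Qbar) (S : Set ℕ) : IntermediateField ℚ Qbar :=
  IntermediateField.adjoin ℚ
    ({x | ∃ n : ℕ, 0 < n ∧ x ^ n = 1} ∪
      {x | ∃ n : ℕ, (0 < n ∧ ∀ q : ℕ, q.Prime → q ∣ n → q ∈ S) ∧ x ^ n = α})

/-- `⟨α⟩_div` : the nonzero `γ` with `γ ^ n ∈ ⟨α⟩` for some `n ≥ 1` -/
def divisionGroup (α : Qbar) : Set Qbar :=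
  {γ | γ ≠ 0 ∧ ∃ n : ℕ, 0 < n ∧ ∃ k : ℤ, γ ^ n = α ^ k}

/-- `[M_S(γ) : M_S]`, the degree of the minimal polynomial of `γ` over `M_S` -/
noncomputable def degreeM (α : Qbar) (S : Set ℕ) (γ : Qbar) : ℕ :=
  (minpoly (fieldM α S) γ).natDegree

/-- `P ∈ M_S[X]` -/
def OverM (α : Qbar) (S : Set ℕ) (P : Qbar[X]) : Prop := ∀ j, P.coeff j ∈ fieldM α S

/-- Let `α` be an algebraic number, not zero and not a root of unity, and `S` a finite set of
primes.  There is `c > 0` such that `h(β) ≥ c` for all `β = γ^n P(γ) / Q(γ)` outside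
`⟨α⟩_div ∪ {0}`, where `γ ∈ ⟨α⟩_div`, `n ∈ ℤ`, `P, Q ∈ M_S[X]`, `Q(γ) ≠ 0`, and the degrees of `P`
and `Q` are at most `d / (96 log d)`, `d = [M_S(γ) : M_S]`. -/
theorem result (α : Qbar) (h0 : α ≠ 0) (hα : ∀ n : ℕ, 0 < n → α ^ n ≠ 1)
    (S : Set ℕ) (hS : S.Finite) :
    ∃ c : ℝ, 0 < c ∧ ∀ γ ∈ divisionGroup α, ∀ d : ℕ, d = degreeM α S γ →
      ∀ P Q : Qbar[X], OverM α S P → OverM α S Q →
        96 * (P.natDegree * Real.log d) ≤ d → 96 * (Q.natDegree * Real.log d) ≤ d →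
        Q.eval γ ≠ 0 → ∀ (n : ℤ) (β : Qbar), β = γ ^ n * (P.eval γ / Q.eval γ) → β ≠ 0 →
          β ∉ divisionGroup α → c ≤ weilHeight β := by
  have halg : Algebra.IsAlgebraic ℚ Qbar := by
    refine ⟨fun x => ?_⟩
    obtain ⟨f, hf, hfx⟩ := (AlgebraicClosure.isAlgebraic ℚ).isAlgebraic x
    refine ⟨f, hf, ?_⟩
    rw [aeval_def] at hfx ⊢
    rw [← hfx]
    congr 1
  obtain ⟨c, hc, h⟩ := SP.rat_thm h0 hα hS.toFinset
  rw [hS.coe_toFinset] at h
  refine ⟨c, hc, fun γ hγ d hd P' Q' hP' hQ' => ?_⟩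
  obtain ⟨P, rfl⟩ := SP.exists_lift hP'
  obtain ⟨Q, rfl⟩ := SP.exists_lift hQ'
  simp only [natDegree_map, eval_map_algebraMap]
  intro hP hQ hQ0 n β hβ hβ0 hβD
  refine h γ hγ d hd (max P.natDegree Q.natDegree) P Q 0 (le_max_left _ _) (le_max_right _ _) ?_
    hQ0 ?_ n β (by rw [hβ, map_zero, add_zero]; rfl) hβ0 hβD
  · rcases max_choice P.natDegree Q.natDegree with e | e
    · rw [e]; exact hP
    · rw [e]; exact hQ
  · intro j
    refine ⟨1, Nat.coprime_one_left d, ?_⟩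
    rw [coeff_zero, map_zero, zero_mul, mul_zero]
    exact isIntegral_zero

end Pool.Agent.Results.MP_ff1fb3_nt.RationalFunctions
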